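import Pool.Agent.X19.RS.Stm
import Pool.Agent.X306.SS.B
import Pool.Agent.X306.SS.A
import Pool.Agent.X195.SS.A4D2
import Pool.Agent.X284.SS.F1

set_option autoImplicit false

open MeasureTheory ProbabilityTheory Filter Topology
open scoped ENNReal Matrix

namespace Pool.Agent.X30.RS

open Pool.Agent.X19.SS Pool.Agent.X19.RS

section A
variable {K : Type} [RCLike K] [MeasurableSpace K] [BorelSpace K]

theorem unc1 (n l : ℕ) : MeasurePreserving (fun (G : Fin n → Fin l → K) (p : Fin n × Fin l) => G p.1 p.2)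
    (gM K n l) (gK K (Fin n × Fin l)) := by
  refine ⟨by fun_prop, ?_⟩
  symm
  apply Measure.pi_eq
  intro s hs
  rw [Measure.map_apply (by fun_prop) (MeasurableSet.univ_pi hs)]
  have h1 : (fun (G : Fin n → Fin l → K) (p : Fin n × Fin l) => G p.1 p.2) ⁻¹' (Set.univ.pi s) =
      Set.univ.pi (fun i => Set.univ.pi (fun j => s (i, j))) := by
    ext G
    simp [Set.mem_pi]
  rw [h1]
  unfold gM gK
  rw [Measure.pi_pi, Fintype.prod_prod_type]
  refine Finset.prod_congr rfl fun i _ => ?_
  rw [Measure.pi_pi]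

theorem unc2 (n l : ℕ) : MeasurePreserving (fun (G : Fin l → Fin n → K) (p : Fin n × Fin l) => G p.2 p.1)
    (gM K l n) (gK K (Fin n × Fin l)) := by
  refine ⟨by fun_prop, ?_⟩
  symm
  apply Measure.pi_eq
  intro s hs
  rw [Measure.map_apply (by fun_prop) (MeasurableSet.univ_pi hs)]
  have h1 : (fun (G : Fin l → Fin n → K) (p : Fin n × Fin l) => G p.2 p.1) ⁻¹' (Set.univ.pi s) =
      Set.univ.pi (fun j => Set.univ.pi (fun i => s (i, j))) := by
    ext G
    simp only [Set.mem_preimage, Set.mem_pi, Set.mem_univ, true_implies, Prod.forall]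
    exact forall_comm
  rw [h1]
  unfold gM gK
  rw [Measure.pi_pi, Fintype.prod_prod_type_right]
  refine Finset.prod_congr rfl fun i _ => ?_
  rw [Measure.pi_pi]

theorem tr_mp (n l : ℕ) : MeasurePreserving (fun (G : Fin n → Fin l → K) (j : Fin l) (i : Fin n) => G i j)
    (gM K n l) (gM K l n) := by
  refine ⟨by fun_prop, ?_⟩
  have h1 := (unc1 (K := K) n l).map_eq
  have h2 := (unc2 (K := K) n l).map_eq
  set inv2 : (Fin n × Fin l → K) → (Fin l → Fin n → K) := fun g j i => g (i, j) with hinv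
  have hm : Measurable inv2 := by
    rw [hinv]
    fun_prop
  have h3 : (gK K (Fin n × Fin l)).map inv2 = gM K l n := by
    rw [← h2, Measure.map_map hm (by fun_prop)]
    exact Measure.map_id
  rw [← h3, ← h1, Measure.map_map hm (by fun_prop)]
  rfl

theorem col_mp (n l : ℕ) (U : EuclideanSpace K (Fin n) ≃ₗᵢ[K] EuclideanSpace K (Fin n)) :
    MeasurePreserving (fun (G : Fin n → Fin l → K) (i : Fin n) (j : Fin l) =>
      (WithLp.ofLp (U (WithLp.toLp 2 (fun i' => G i' j))) : Fin n → K) i) (gM K n l) (gM K n l) := by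
  have hB2 : S_B2 := Pool.Agent.X306.SS.t_B2
  have h1 := tr_mp (K := K) n l
  have h2 : MeasurePreserving (fun (G : Fin l → Fin n → K) (j : Fin l) =>
      (WithLp.ofLp (U (WithLp.toLp 2 (G j))) : Fin n → K)) (gM K l n) (gM K l n) := by
    unfold gM
    haveI : ∀ _ : Fin l, SigmaFinite (gK K (Fin n)) := fun _ => by unfold gK; infer_instance
    exact measurePreserving_pi _ _ (fun _ => hB2 K (Fin n) (Fin n) U)
  have h3 := tr_mp (K := K) l n
  exact h3.comp (h2.comp h1)

/-- unitary matrices act by isometries -/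
theorem toIso {n : ℕ} (V : Matrix (Fin n) (Fin n) K) (hV : V ∈ Matrix.unitaryGroup (Fin n) K) :
    ∃ U : EuclideanSpace K (Fin n) ≃ₗᵢ[K] EuclideanSpace K (Fin n), ∀ y : Fin n → K,
      (WithLp.ofLp (U (WithLp.toLp 2 y)) : Fin n → K) = V *ᵥ y := by
  have h : Matrix.toEuclideanCLM (n := Fin n) (𝕜 := K) V ∈
      unitary (EuclideanSpace K (Fin n) →L[K] EuclideanSpace K (Fin n)) :=
    Unitary.map_mem (Matrix.toEuclideanCLM (n := Fin n) (𝕜 := K)) hV
  refine ⟨Unitary.linearIsometryEquiv ⟨_, h⟩, fun y => ?_⟩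
  exact Matrix.ofLp_toEuclideanCLM (𝕜 := K) V (WithLp.toLp 2 y)

theorem ofIso {n : ℕ} (U : EuclideanSpace K (Fin n) ≃ₗᵢ[K] EuclideanSpace K (Fin n)) :
    ∃ V : Matrix (Fin n) (Fin n) K, V ∈ Matrix.unitaryGroup (Fin n) K ∧ ∀ y : Fin n → K,
      (WithLp.ofLp (U (WithLp.toLp 2 y)) : Fin n → K) = V *ᵥ y := by
  set T := Unitary.linearIsometryEquiv.symm U with hT
  refine ⟨(Matrix.toEuclideanCLM (n := Fin n) (𝕜 := K)).symm T, ?_, fun y => ?_⟩
  · exact Unitary.map_mem (Matrix.toEuclideanCLM (n := Fin n) (𝕜 := K)).symm T.2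
  · have h1 : Matrix.toEuclideanCLM (n := Fin n) (𝕜 := K)
        ((Matrix.toEuclideanCLM (n := Fin n) (𝕜 := K)).symm T) = T := by simp
    have h2 := Matrix.ofLp_toEuclideanCLM (𝕜 := K)
      ((Matrix.toEuclideanCLM (n := Fin n) (𝕜 := K)).symm T) (WithLp.toLp 2 y)
    rw [h1] at h2
    rw [← h2]
    simp [hT]

theorem left_mp (n l : ℕ) (V : Matrix (Fin n) (Fin n) K) (hV : V ∈ Matrix.unitaryGroup (Fin n) K) :
    MeasurePreserving (fun (G : Fin n → Fin l → K) (i : Fin n) (j : Fin l) =>
      (V * Matrix.of G : Matrix (Fin n) (Fin l) K) i j) (gM K n l) (gM K n l) := by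
  obtain ⟨U, hU⟩ := toIso V hV
  have h := col_mp n l U
  convert h using 1
  funext G i j
  rw [hU]
  simp [Matrix.mul_apply, Matrix.mulVec, dotProduct]

end A

section B
variable {K : Type} [RCLike K]

open scoped ComplexOrder in
theorem rkct {l n : ℕ} (O : Matrix (Fin n) (Fin l) K) : Oᴴ.rank = O.rank := Matrix.rank_conjTranspose O

theorem unit_of_rank {l : ℕ} {n : ℕ} (R : Matrix (Fin l) (Fin l) K) (O : Matrix (Fin n) (Fin l) K)
    (f : (Fin n → K) → (Fin l → K)) (h : ∀ y, Oᴴ *ᵥ y = R *ᵥ f y) (hO : O.rank = l) : IsUnit R := by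
  rw [← Matrix.mulVec_surjective_iff_isUnit]
  have h1 : Oᴴ.rank = l := by rw [rkct, hO]
  have h2 : LinearMap.range Oᴴ.mulVecLin = ⊤ := by
    apply Submodule.eq_top_of_finrank_eq
    rw [Matrix.rank] at h1
    rw [h1]
    simp
  intro x
  have h3 : x ∈ LinearMap.range Oᴴ.mulVecLin := by rw [h2]; trivial
  obtain ⟨y, hy⟩ := h3
  refine ⟨f y, ?_⟩
  rw [← h y]
  exact hy

theorem wor {l q : ℕ} (Om X : Matrix (Fin (l + q)) (Fin l) K) (hO : Om.rank = l) (hX : X.rank = l) :
    ∃ W ∈ Matrix.unitaryGroup (Fin (l + q)) K, ∃ R : Matrix (Fin l) (Fin l) K, IsUnit R ∧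
      X = W * Om * R := by
  obtain ⟨U0, R0, h0⟩ := Pool.Agent.X284.SS.t_F1 K l q Om
  obtain ⟨U1, R1, h1⟩ := Pool.Agent.X284.SS.t_F1 K l q X
  have hR0 := unit_of_rank R0 Om _ h0 hO
  have hR1 := unit_of_rank R1 X _ h1 hX
  obtain ⟨A, hA, hAy⟩ := ofIso (U1.trans U0.symm)
  refine ⟨star A, Unitary.star_mem hA, (R1 * R0⁻¹)ᴴ, ?_, ?_⟩
  · rw [← Matrix.star_eq_conjTranspose]
    apply IsUnit.star
    apply IsUnit.mul hR1
    exact (Matrix.isUnit_nonsing_inv_iff).2 hR0
  · have h3 : Xᴴ = R1 * R0⁻¹ * Omᴴ * A := by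
      apply Matrix.ext_of_mulVec_single
      intro k
      set y : Fin (l + q) → K := Pi.single k 1 with hy
      rw [h1 y]
      have h4 := h0 (A *ᵥ y)
      rw [← hAy y] at h4
      have h5 : (fun i => (WithLp.ofLp (U0 (WithLp.toLp 2
          (WithLp.ofLp ((U1.trans U0.symm) (WithLp.toLp 2 y)) : Fin (l + q) → K))) : _ → K) (Sum.inl i)) =
          (fun i => (WithLp.ofLp (U1 (WithLp.toLp 2 y)) : _ → K) (Sum.inl i)) := by
        simp
      rw [h5, hAy y] at h4
      rw [← Matrix.mulVec_mulVec, ← Matrix.mulVec_mulVec, h4, Matrix.mulVec_mulVec,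
        Matrix.mul_assoc, Matrix.nonsing_inv_mul _ ((Matrix.isUnit_iff_isUnit_det _).1 hR0),
        Matrix.mul_one]
    have h6 := congrArg Matrix.conjTranspose h3
    rw [Matrix.conjTranspose_conjTranspose] at h6
    rw [h6, Matrix.conjTranspose_mul, Matrix.conjTranspose_mul, Matrix.conjTranspose_conjTranspose,
      Matrix.star_eq_conjTranspose, Matrix.mul_assoc]

end B

section C
variable {K : Type} [RCLike K] [MeasurableSpace K] [BorelSpace K]

noncomputable local instance (m : ℕ) : MeasurableSpace (UG K m) := borel _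

local instance (m : ℕ) : BorelSpace (UG K m) := ⟨rfl⟩

theorem t_HR : S_HR := by
  intro K _ _ _ n l hln
  obtain ⟨q, rfl⟩ := Nat.exists_eq_add_of_le hln
  letI : MeasurableSpace (UG K (l + q)) := borel _
  haveI : BorelSpace (UG K (l + q)) := ⟨rfl⟩
  set H : Measure (UG K (l + q)) := Measure.haarMeasure ⊤ with hH
  haveI : IsProbabilityMeasure H := ⟨by
    rw [hH]
    have := Measure.haarMeasure_self (K₀ := (⊤ : TopologicalSpace.PositiveCompacts (UG K (l + q))))
    simpa using this⟩
  have hentry : ∀ i j, Measurable fun U : UG K (l + q) =>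
      (U : Matrix (Fin (l + q)) (Fin (l + q)) K) i j := by
    intro i j
    have h : Continuous fun U : UG K (l + q) => (U : Matrix (Fin (l + q)) (Fin (l + q)) K) i j :=
      (continuous_apply_apply i j).comp continuous_subtype_val
    exact h.measurable
  set ρ : UG K (l + q) → (Fin (l + q) → Fin (l + q) → K) :=
    fun U i j => (star (U : Matrix (Fin (l + q)) (Fin (l + q)) K)) i j with hρ
  have hρm : Measurable ρ := by
    refine measurable_pi_lambda _ fun i => measurable_pi_lambda _ fun j => ?_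
    simp only [hρ, Matrix.star_apply]
    exact RCLike.continuous_conj.measurable.comp (hentry j i)
  refine ⟨H.map ρ, Measure.isProbabilityMeasure_map hρm.aemeasurable, ?_, ?_⟩
  · have hcl : MeasurableSet {V : Fin (l + q) → Fin (l + q) → K |
        (Matrix.of V : Matrix (Fin (l + q)) (Fin (l + q)) K) ∈ Matrix.unitaryGroup (Fin (l + q)) K} := by
      have : {V : Fin (l + q) → Fin (l + q) → K |
        (Matrix.of V : Matrix (Fin (l + q)) (Fin (l + q)) K) ∈ Matrix.unitaryGroup (Fin (l + q)) K} =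
        {V | ∀ i j, ∑ k, V i k * star (V j k) = (1 : Matrix (Fin (l + q)) (Fin (l + q)) K) i j} := by
        ext V
        rw [Set.mem_setOf_eq, Matrix.mem_unitaryGroup_iff, Set.mem_setOf_eq, ← Matrix.ext_iff]
        simp [Matrix.mul_apply, Matrix.star_apply]
      rw [this, Set.setOf_forall]
      refine MeasurableSet.iInter fun i => ?_
      rw [Set.setOf_forall]
      refine MeasurableSet.iInter fun j => ?_
      apply measurableSet_eq_fun
      · refine Finset.measurable_sum _ fun k _ => ?_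
        have hs : Measurable fun V : Fin (l + q) → Fin (l + q) → K => V j k :=
          (measurable_pi_apply k).comp (measurable_pi_apply j)
        have hs2 : Measurable fun V : Fin (l + q) → Fin (l + q) → K => star (V j k) :=
          (continuous_star (R := K)).measurable.comp hs
        have hs3 : Measurable fun V : Fin (l + q) → Fin (l + q) → K => V i k :=
          (measurable_pi_apply k).comp (measurable_pi_apply i)
        exact hs3.mul hs2
      · exact measurable_const
    rw [ae_map_iff hρm.aemeasurable hcl]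
    refine Filter.Eventually.of_forall fun U => ?_
    exact Unitary.star_mem U.2
  · intro F hF hinv Om hOm
    -- the average
    have hmm : Measurable fun p : (UG K (l + q)) × (Fin (l + q) → Fin l → K) =>
        F ((Matrix.of (ρ p.1) * Matrix.of p.2 : Matrix (Fin (l + q)) (Fin l) K)) := by
      apply hF.comp
      refine measurable_pi_lambda _ fun i => measurable_pi_lambda _ fun j => ?_
      simp only [Matrix.mul_apply, Matrix.of_apply]
      refine Finset.measurable_sum _ fun k _ => ?_
      exact (((measurable_pi_apply k).comp ((measurable_pi_apply i).comp (hρm.comp measurable_fst))).mul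
        ((measurable_pi_apply j).comp ((measurable_pi_apply k).comp measurable_snd)))
    have hΦ : ∀ X : Matrix (Fin (l + q)) (Fin l) K, X.rank = l →
        ∫⁻ U, F ((Matrix.of (ρ U) * X : Matrix (Fin (l + q)) (Fin l) K)) ∂H =
        ∫⁻ U, F ((Matrix.of (ρ U) * Om : Matrix (Fin (l + q)) (Fin l) K)) ∂H := by
      intro X hX
      obtain ⟨W, hW, R, hR, hXW⟩ := wor Om X hOm hX
      have h1 : ∀ U : UG K (l + q), F ((Matrix.of (ρ U) * X : Matrix (Fin (l + q)) (Fin l) K)) =
          F ((Matrix.of (ρ ((⟨star W, Unitary.star_mem hW⟩ : UG K (l + q)) * U)) * Om :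
            Matrix (Fin (l + q)) (Fin l) K)) := by
        intro U
        rw [hXW, ← Matrix.mul_assoc, hinv _ R hR]
        congr 1
        have : (Matrix.of (ρ ((⟨star W, Unitary.star_mem hW⟩ : UG K (l + q)) * U)) :
            Matrix (Fin (l + q)) (Fin (l + q)) K) = Matrix.of (ρ U) * W := by
          show star ((star W) * (U : Matrix (Fin (l + q)) (Fin (l + q)) K)) = star (U : Matrix (Fin (l + q)) (Fin (l + q)) K) * W
          rw [star_mul, star_star]
        rw [this, Matrix.mul_assoc]
      simp_rw [h1]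
      exact lintegral_mul_left_eq_self
        (fun U : UG K (l + q) => F ((Matrix.of (ρ U) * Om : Matrix (Fin (l + q)) (Fin l) K)))
        (⟨star W, Unitary.star_mem hW⟩ : UG K (l + q))
    have hG1 : ∀ U : UG K (l + q), ∫⁻ G, F ((Matrix.of (ρ U) * Matrix.of G : Matrix (Fin (l + q)) (Fin l) K))
        ∂(gM K (l + q) l) = ∫⁻ G, F G ∂(gM K (l + q) l) := by
      intro U
      exact (left_mp (l + q) l (Matrix.of (ρ U)) (Unitary.star_mem U.2)).lintegral_comp hF
    have hrank : ∀ᵐ G ∂(gM K (l + q) l), (Matrix.of G : Matrix (Fin (l + q)) (Fin l) K).rank = l := by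
      have hD2 : ∀ᵐ S ∂(Measure.pi (fun _ : Fin l => gK K (Fin (l + q)))), LinearIndependent K S :=
        Pool.Agent.X195.SS.t_D2 Pool.Agent.X306.SS.t_B1 K l (Fin (l + q)) (by simp)
      have h2 := (tr_mp (K := K) (l + q) l).quasiMeasurePreserving.ae hD2
      filter_upwards [h2] with G hG
      have h3 := LinearIndependent.rank_matrix
        (M := (Matrix.of (fun (j : Fin l) (i : Fin (l + q)) => G i j) : Matrix (Fin l) (Fin (l + q)) K)) hG
      rw [← Matrix.rank_transpose, Fintype.card_fin] at h3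
      exact h3
    haveI : IsProbabilityMeasure (gM K (l + q) l) := by
      unfold gM gK
      infer_instance
    rw [lintegral_map (by
      apply hF.comp
      refine measurable_pi_lambda _ fun i => measurable_pi_lambda _ fun j => ?_
      simp only [Matrix.mul_apply, Matrix.of_apply]
      refine Finset.measurable_sum _ fun k _ => ?_
      exact ((measurable_pi_apply k).comp (measurable_pi_apply i)).mul_const _) hρm]
    calc ∫⁻ U, F ((Matrix.of (ρ U) * Om : Matrix (Fin (l + q)) (Fin l) K)) ∂H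
        = ∫⁻ _G : Fin (l + q) → Fin l → K, ∫⁻ U, F ((Matrix.of (ρ U) * Om : Matrix (Fin (l + q)) (Fin l) K)) ∂H
            ∂(gM K (l + q) l) := by
          rw [lintegral_const, measure_univ, mul_one]
      _ = ∫⁻ G : Fin (l + q) → Fin l → K, ∫⁻ U, F ((Matrix.of (ρ U) * Matrix.of G : Matrix (Fin (l + q)) (Fin l) K)) ∂H
            ∂(gM K (l + q) l) := by
          apply lintegral_congr_ae
          filter_upwards [hrank] with G hG
          exact (hΦ (Matrix.of G) hG).symm
      _ = ∫⁻ U, ∫⁻ G : Fin (l + q) → Fin l → K, F ((Matrix.of (ρ U) * Matrix.of G : Matrix (Fin (l + q)) (Fin l) K))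
            ∂(gM K (l + q) l) ∂H := by
          rw [lintegral_lintegral_swap]
          exact (hmm.comp measurable_swap).aemeasurable
      _ = ∫⁻ _U, ∫⁻ G, F G ∂(gM K (l + q) l) ∂H := by
          simp_rw [hG1]
      _ = _ := by rw [lintegral_const, measure_univ, mul_one]

end C

end Pool.Agent.X30.RS
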